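import Pool.Agent.Lib.MP_70387e_co.Maps

set_option autoImplicit false

namespace Pool.Agent.Results.MP_70387e_co.NonRegular

/-- The cells `x` and `y` differ by a nonzero multiple of a queen direction. -/
def Attack (x y : Fin 3 → ℤ) : Prop :=
  ∃ t : ℤ, t ≠ 0 ∧ ∃ v : Fin 3 → ℤ, v ≠ 0 ∧ (∀ i, v i = -1 ∨ v i = 0 ∨ v i = 1) ∧ y - x = t • v

/-- A set of `n ^ 2` pairwise non-attacking cells of the board `{1, …, n} ^ 3`. -/
def IsSolution (n : ℕ) (S : Finset (Fin 3 → ℤ)) : Prop :=
  S.card = n ^ 2 ∧ (∀ x ∈ S, ∀ i, 1 ≤ x i ∧ x i ≤ n) ∧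
    ∀ x ∈ S, ∀ y ∈ S, x ≠ y → ¬ Attack x y

/-- The third coordinate is an affine function of the first two modulo `n`. -/
def IsRegular (n : ℕ) (S : Finset (Fin 3 → ℤ)) : Prop :=
  ∃ a b c : ℤ, ∀ x ∈ S, x 2 ≡ a * x 0 + b * x 1 + c [ZMOD n]

theorem result (n : ℕ) (hn : Nat.Coprime n 210) (h : n = 29 ∨ 37 ≤ n) :
    ∃ S : Finset (Fin 3 → ℤ), IsSolution n S ∧ ¬ IsRegular n S := by
  classical
  obtain ⟨g, b, hb, hinj, haff⟩ := Pool.Agent.Lib.MP_70387e_co.good_of_coprime n hn h
  have : NeZero n := ⟨by omega⟩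
  let F : ℤ → ℤ → ℤ := fun i j => ((g i + ((b * j : ℤ) : ZMod n)).val : ℤ) + 1
  have hF : ∀ i j, ((F i j : ℤ) : ZMod n) = g i + b * j + 1 := by
    intro i j
    simp [F]
  let c : ℤ × ℤ → Fin 3 → ℤ := fun p => ![p.1, p.2, F p.1 p.2]
  have hc : Function.Injective c := by
    rintro ⟨i, j⟩ ⟨i', j'⟩ hh
    have h0 : i = i' := congrFun hh 0
    have h1 : j = j' := congrFun hh 1
    rw [h0, h1]
  have hsmall : ∀ z : ℤ, -(n : ℤ) < z → z < n → (z : ZMod n) = 0 → z = 0 := by
    intro z h1 h2 hz
    rw [ZMod.intCast_zmod_eq_zero_iff_dvd] at hz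
    exact Int.eq_zero_of_abs_lt_dvd hz (by rw [abs_lt]; omega)
  refine ⟨(Finset.Icc (1 : ℤ) n ×ˢ Finset.Icc (1 : ℤ) n).image c, ⟨?_, ?_, ?_⟩, ?_⟩
  · rw [Finset.card_image_of_injective _ hc, Finset.card_product]
    simp [sq]
  · intro x hx k
    obtain ⟨⟨i, j⟩, hij, rfl⟩ := Finset.mem_image.mp hx
    simp only [Finset.mem_product, Finset.mem_Icc] at hij
    have := ZMod.val_lt (g i + ((b * j : ℤ) : ZMod n))
    fin_cases k
    · exact hij.1
    · exact hij.2
    · show 1 ≤ F i j ∧ F i j ≤ n
      simp only [F]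
      omega
  · intro x hx y hy hxy ⟨t, ht, v, _, hv, hd⟩
    obtain ⟨⟨i, j⟩, hij, rfl⟩ := Finset.mem_image.mp hx
    obtain ⟨⟨i', j'⟩, hij', rfl⟩ := Finset.mem_image.mp hy
    simp only [Finset.mem_product, Finset.mem_Icc] at hij hij'
    have h0 : i' - i = t * v 0 := congrFun hd 0
    have h1 : j' - j = t * v 1 := congrFun hd 1
    have h2 : F i' j' - F i j = t * v 2 := congrFun hd 2
    have h0' : (i' : ZMod n) - i = t * v 0 := by exact_mod_cast congrArg (Int.cast : ℤ → ZMod n) h0
    have h1' : (j' : ZMod n) - j = t * v 1 := by exact_mod_cast congrArg (Int.cast : ℤ → ZMod n) h1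
    have h2' : g i' - g i + t * (b * v 1 - v 2) = 0 := by
      have := congrArg (Int.cast : ℤ → ZMod n) h2
      rw [Int.cast_sub, hF, hF, Int.cast_mul] at this
      linear_combination this - b * h1'
    have hv1 := hv 1
    have hv2 := hv 2
    rcases hv 0 with e | e | e
    · have key : (i' : ZMod n) = i := by
        apply hinj (-v 1) (v 2) (by omega) (by omega) (by omega) (by omega)
        rw [e] at h0'
        push_cast at h0' ⊢
        linear_combination h2' - (b * v 1 - v 2 : ZMod n) * h0'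
      have := hsmall (i' - i) (by omega) (by omega) (by push_cast; rw [key, sub_self])
      rw [e] at h0
      omega
    · have hi : i' = i := by rw [e] at h0; omega
      subst hi
      rw [sub_self, zero_add] at h2'
      rcases hv1 with e1 | e1 | e1
      · have hu := hb (v 2) (by omega) (by omega)
        have h3 : ((b + v 2 : ℤ) : ZMod n) * (t : ZMod n) = 0 := by
          rw [e1] at h2'
          push_cast at h2' ⊢
          linear_combination -h2'
        rw [hu.mul_right_eq_zero] at h3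
        rw [e1] at h1
        exact ht (hsmall t (by omega) (by omega) h3)
      · rw [e1] at h1
        exact hxy (by rw [show j' = j by omega])
      · have hu := hb (-v 2) (by omega) (by omega)
        have h3 : ((b + -v 2 : ℤ) : ZMod n) * (t : ZMod n) = 0 := by
          rw [e1] at h2'
          push_cast at h2' ⊢
          linear_combination h2'
        rw [hu.mul_right_eq_zero] at h3
        rw [e1] at h1
        exact ht (hsmall t (by omega) (by omega) h3)
    · have key : (i' : ZMod n) = i := by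
        apply hinj (v 1) (-v 2) (by omega) (by omega) (by omega) (by omega)
        rw [e] at h0'
        push_cast at h0' ⊢
        linear_combination h2' + (b * v 1 - v 2 : ZMod n) * h0'
      have := hsmall (i' - i) (by omega) (by omega) (by push_cast; rw [key, sub_self])
      rw [e] at h0
      omega
  · rintro ⟨a', b', c', hreg⟩
    refine haff ⟨a', a' * 0 + b' + c' - b - 1, fun x => ?_⟩
    obtain ⟨i, hi1, hi2, hi⟩ : ∃ i : ℤ, 1 ≤ i ∧ i ≤ n ∧ (i : ZMod n) = x := by
      have := ZMod.val_lt (x - 1)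
      exact ⟨((x - 1).val : ℤ) + 1, by omega, by omega, by simp⟩
    have h1 := hreg (c (i, 1)) (Finset.mem_image_of_mem c (by
      simp only [Finset.mem_product, Finset.mem_Icc]
      omega))
    have h2 : F i 1 ≡ a' * i + b' * 1 + c' [ZMOD n] := h1
    rw [← ZMod.intCast_eq_intCast_iff, hF] at h2
    push_cast at h2
    rw [hi] at h2
    linear_combination h2

end Pool.Agent.Results.MP_70387e_co.NonRegular
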